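import Mathlib
import Pool.Agent.Helper18.SK.Defs

/-!
# Packet W1 (MP_449ba1_co): elementary facts on the list of the factors of length `k`
-/

set_option autoImplicit false

namespace Pool.Agent.Helper18.SK.PkW1

open Pool.Agent.Helper18.SK

variable {α : Type}

lemma facs_nil (k : ℕ) (hk : 1 ≤ k) : facs k ([] : List α) = [] := by
  simp [facs]
  omega

lemma facs_cons (k : ℕ) (a : α) (y : List α) :
    facs k (a :: y) = (if k ≤ y.length + 1 then [(a :: y).take k] else []) ++ facs k y := by
  unfold facs
  rw [List.tails_cons, List.filter_cons]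
  by_cases h : k ≤ y.length + 1
  · simp [h]
  · simp [h]

lemma facs_cons_pos (k : ℕ) (a : α) (y : List α) (h : k ≤ y.length + 1) :
    facs k (a :: y) = (a :: y).take k :: facs k y := by
  rw [facs_cons, if_pos h]
  rfl

lemma facs_cons_neg (k : ℕ) (a : α) (y : List α) (h : ¬ k ≤ y.length + 1) :
    facs k (a :: y) = facs k y := by
  rw [facs_cons, if_neg h]
  rfl

lemma facs_short (k : ℕ) (y : List α) (h : y.length < k) : facs k y = [] := by
  induction y with
  | nil => exact facs_nil k (by simp only [List.length_nil] at h; omega)
  | cons a y ih =>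
    simp only [List.length_cons] at h
    rw [facs_cons_neg k a y (by omega)]
    exact ih (by omega)

lemma count_facs [DecidableEq α] (k : ℕ) (x u : List α) (hx : x.length = k) :
    occ x u = (facs k u).count x := by
  unfold occ facs
  rw [List.count_eq_countP, List.countP_map, List.countP_filter]
  apply List.countP_congr
  intro t _
  simp only [List.isPrefixOf_iff_prefix, Function.comp, Bool.and_eq_true, beq_iff_eq,
    decide_eq_true_eq]
  constructor
  · intro h
    refine ⟨?_, hx ▸ h.length_le⟩
    rw [← hx]
    exact (List.prefix_iff_eq_take.mp h).symm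
  · rintro ⟨h1, _⟩
    rw [← h1]
    exact List.take_prefix _ _

lemma length_mem (k : ℕ) (y : List α) : ∀ x ∈ facs k y, x.length = k := by
  intro x hx
  unfold facs at hx
  rw [List.mem_map] at hx
  obtain ⟨t, ht, rfl⟩ := hx
  have := (List.mem_filter.mp ht).2
  simp only [decide_eq_true_eq] at this
  rw [List.length_take]
  omega

lemma length_facs (k : ℕ) (hk : 1 ≤ k) (y : List α) :
    (facs k y).length = y.length + 1 - k := by
  induction y with
  | nil => rw [facs_nil k hk]; simp; omega
  | cons a y ih =>
    by_cases h : k ≤ y.length + 1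
    · rw [facs_cons_pos k a y h, List.length_cons, ih, List.length_cons]
      omega
    · rw [facs_cons_neg k a y h, ih, List.length_cons]
      omega

lemma walk_facs (k : ℕ) (hk : 1 ≤ k) (y : List α) : k - 1 ≤ y.length →
    IsWalk (bsrc k) btgt (y.take (k - 1)) (y.drop (y.length - (k - 1))) (facs k y) := by
  induction y with
  | nil =>
    intro h
    rw [facs_nil k hk]
    simp [IsWalk]
  | cons a y ih =>
    intro h
    by_cases h1 : k ≤ y.length + 1
    · rw [facs_cons_pos k a y h1]
      refine ⟨?_, ?_⟩
      · unfold bsrc
        rw [List.take_take]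
        congr 1
        omega
      · have h2 := ih (by omega)
        have e1 : btgt ((a :: y).take k) = y.take (k - 1) := by
          unfold btgt
          obtain ⟨j, rfl⟩ : ∃ j, k = j + 1 := ⟨k - 1, by omega⟩
          simp
        have e2 : (a :: y).drop ((a :: y).length - (k - 1)) = y.drop (y.length - (k - 1)) := by
          rw [List.length_cons, show y.length + 1 - (k - 1) = (y.length - (k - 1)) + 1 by omega,
            List.drop_succ_cons]
        rw [e1, e2]
        exact h2
    · have h3 : (a :: y).length = k - 1 := by
        simp only [List.length_cons] at h ⊢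
        omega
      rw [facs_short k (a :: y) (by omega)]
      show (a :: y).take (k - 1) = (a :: y).drop ((a :: y).length - (k - 1))
      rw [h3]
      simp only [Nat.sub_self, List.drop_zero]
      rw [← h3, List.take_length]

lemma facs_append_take (k : ℕ) (hk : 1 ≤ k) (y₁ y₂ : List α) (h : k - 1 ≤ y₂.length) :
    facs k (y₁ ++ y₂) = facs k (y₁ ++ y₂.take (k - 1)) ++ facs k y₂ := by
  induction y₁ with
  | nil =>
    rw [List.nil_append, List.nil_append, facs_short k (y₂.take (k - 1))]
    · rfl
    · rw [List.length_take]
      omega
  | cons a y₁ ih =>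
    have l1 : (y₁ ++ y₂.take (k - 1)).length = y₁.length + (k - 1) := by
      rw [List.length_append, List.length_take]
      omega
    have l2 : (y₁ ++ y₂).length = y₁.length + y₂.length := List.length_append
    rw [List.cons_append, List.cons_append, facs_cons_pos k a _ (by omega),
      facs_cons_pos k a _ (by omega), ih, List.cons_append]
    congr 1
    obtain ⟨j, rfl⟩ : ∃ j, k = j + 1 := ⟨k - 1, by omega⟩
    simp only [List.take_succ_cons, Nat.add_sub_cancel]
    congr 1
    rw [List.take_append, List.take_append, List.take_take]
    congr 2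
    omega

lemma facs_append_drop (k : ℕ) (hk : 1 ≤ k) (y₁ y₂ : List α) : k - 1 ≤ y₁.length →
    facs k (y₁ ++ y₂) = facs k y₁ ++ facs k (y₁.drop (y₁.length - (k - 1)) ++ y₂) := by
  induction y₁ with
  | nil =>
    intro h
    rw [facs_nil k hk]
    simp
  | cons a y₁ ih =>
    intro h
    by_cases h1 : k ≤ y₁.length + 1
    · have l2 : (y₁ ++ y₂).length = y₁.length + y₂.length := List.length_append
      rw [List.cons_append, facs_cons_pos k a _ (by omega), facs_cons_pos k a _ h1,
        ih (by omega), List.length_cons,
        show y₁.length + 1 - (k - 1) = (y₁.length - (k - 1)) + 1 by omega,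
        List.drop_succ_cons, List.cons_append]
      congr 1
      obtain ⟨j, rfl⟩ : ∃ j, k = j + 1 := ⟨k - 1, by omega⟩
      simp only [List.take_succ_cons]
      congr 1
      rw [List.take_append_of_le_length (by omega)]
    · have h3 : (a :: y₁).length = k - 1 := by
        simp only [List.length_cons] at h ⊢
        omega
      rw [facs_short k (a :: y₁) (by omega), h3]
      simp

lemma facs_infix (k : ℕ) (hk : 1 ≤ k) (u y : List α) (h : u <:+: y) :
    facs k u <:+: facs k y := by
  by_cases hu : k - 1 ≤ u.length
  · obtain ⟨s, t, rfl⟩ := h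
    rw [List.append_assoc, facs_append_take k hk s (u ++ t) (by rw [List.length_append]; omega),
      facs_append_drop k hk u t hu]
    exact ⟨facs k (s ++ (u ++ t).take (k - 1)), facs k (u.drop (u.length - (k - 1)) ++ t), by
      rw [List.append_assoc]⟩
  · rw [facs_short k u (by omega)]
    exact ⟨[], facs k y, by simp⟩

theorem w1 : GFacs := by
  intro α _ k hk
  exact ⟨fun x u h => count_facs k x u h, length_mem k, length_facs k hk, walk_facs k hk,
    fun y₁ y₂ h => facs_append_take k hk y₁ y₂ h, fun y₁ y₂ h => facs_append_drop k hk y₁ y₂ h,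
    facs_infix k hk⟩

end Pool.Agent.Helper18.SK.PkW1
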